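import Pool.Agent.Helper88_LCG.Classification

/-!
# Locally compact groups `G` with `G / Z(G)` compact: `rad(L¹(G)'')² = 0` iff `G` is compact

Notation.
* `Lp ℂ 1 μ` is `L¹(G)` for a (regular) left Haar measure `μ` of the locally compact group `G`.  Its
  product is convolution: `f * g = ∫ f(y) (T_y g) dμ(y)` (an `L¹(G)`-valued Bochner integral), where
  `(T_y g)(x) = g(y⁻¹ x)`; see `Helper88_LCG.conv` and `Helper88_LCG.trans`.
* `Bidual A` is the bidual `A''` of the normed algebra `A`, with the first Arens product; see
  `Helper88_Arens.Bidual.arens`.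
* `rad B` is the Jacobson radical of the (possibly non-unital) algebra `B`: the elements of `B` which
  belong to the Jacobson radical of the unitization `B ⊕ ℂ`.  For unital `B` it is the usual Jacobson
  radical (`Helper88_LCG.mem_rad_iff_of_unital`).
* `RadBidualSqZero A` says `Φ □ Ψ = 0` for all `Φ, Ψ ∈ rad(A'')`.

The class of groups with `G / Z(G)` compact contains all abelian and all compact groups.  So the
theorem answers Q1 affirmatively (every infinite compact group has the property) and Q2 negatively
(`ℤ` does not have it), and says that among these groups the compact ones are the only ones with the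
property.

Idea of the proof.  If `G` is compact then `L¹(G)` is a two-sided ideal of its bidual and
`L¹(G) ∩ rad(L¹(G)'') = 0` by semisimplicity of the image of `L¹(G)` in `B(L²(G))`, hence
`L¹(G)'' □ rad(L¹(G)'') = 0`.  If `G` is not compact, its centre `Z` is not compact either and
contains elements `z_{i,a}` (`i ∈ ℕ`) which are independent up to order `4` modulo a
compact set.  With `φ_i` a suitable combination of six point masses of norm one, `‖φ_i³‖ ≤ η < 1`, the
weak-* cluster points `Φ` of `φ_1 ⋯ φ_k * e` satisfy `(Ψ □ Φ)³ = 0` for all `Ψ`, so that `Φ` is in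
the radical, and `Φ □ Φ ≠ 0`.
-/

namespace Pool.Agent.Results.MP_67b4ec_an.Classification

open MeasureTheory
open Pool.Agent.Helper88_Arens Pool.Agent.Helper88_LCG

/-- Let `G` be a (Hausdorff) locally compact group such that `G / Z(G)` is compact, for instance an
abelian or a compact group, and let `μ` be a left Haar measure.  Then
`rad(L¹(G)'') □ rad(L¹(G)'') = {0}` if and only if `G` is compact. -/
theorem result (G : Type*) [Group G] [TopologicalSpace G] [IsTopologicalGroup G]
    [LocallyCompactSpace G] [T2Space G] [CompactSpace (G ⧸ Subgroup.center G)]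
    [MeasurableSpace G] [BorelSpace G] (μ : Measure G) [μ.IsHaarMeasure] [μ.Regular] :
    RadBidualSqZero (Lp ℂ 1 μ) ↔ CompactSpace G :=
  rad_sq_eq_zero_iff G μ

/-- The case of abelian groups. -/
theorem abelian_case (G : Type*) [CommGroup G] [TopologicalSpace G] [IsTopologicalGroup G]
    [LocallyCompactSpace G] [T2Space G] [MeasurableSpace G] [BorelSpace G] (μ : Measure G)
    [μ.IsHaarMeasure] [μ.Regular] :
    RadBidualSqZero (Lp ℂ 1 μ) ↔ CompactSpace G := by
  have hsub : Subsingleton (G ⧸ Subgroup.center G) := by
    rw [QuotientGroup.subsingleton_iff, CommGroup.center_eq_top]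
  have : CompactSpace (G ⧸ Subgroup.center G) := inferInstance
  exact result G μ

/-- The circle group, an infinite compact group, has `rad(L¹(𝕋)'')² = {0}` (Q1). -/
theorem circle_case [MeasurableSpace Circle] [BorelSpace Circle] (μ : Measure Circle)
    [μ.IsHaarMeasure] :
    RadBidualSqZero (Lp ℂ 1 μ) :=
  (abelian_case Circle μ).mpr inferInstance

/-- The discrete group of integers does not have the property (Q2). -/
theorem int_case [MeasurableSpace (Multiplicative ℤ)] [BorelSpace (Multiplicative ℤ)]
    (μ : Measure (Multiplicative ℤ)) [μ.IsHaarMeasure] [μ.Regular] :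
    ¬ RadBidualSqZero (Lp ℂ 1 μ) := by
  rw [abelian_case (Multiplicative ℤ) μ]
  intro h
  have : Finite (Multiplicative ℤ) := finite_of_compact_of_discrete
  exact not_finite (Multiplicative ℤ)

end Pool.Agent.Results.MP_67b4ec_an.Classification
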