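import Pool.Agent.Helper88_Arens.Nilpotent

/-!
# The radical of `ℓ¹(G)''` for groups with infinite centre

`L1 G` is the Banach algebra `ℓ¹(G)` (convolution product) of the discrete group `G`, `Bidual A` is
the bidual `A''` of `A` with the first Arens product, and `Ring.jacobson` is the Jacobson radical.

The theorem says that for every group `G` with infinite centre and every `m`, the radical of
`ℓ¹(G)''` contains a nilpotent element of index exactly `m + 1`.  In particular (take `m = 2`),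
`rad(ℓ¹(G)'') □ rad(ℓ¹(G)'') ≠ 0`, e.g. for `G = ℤ`; see `int_case` below.

Idea of the proof for `G = ℤ`, `m = 2`: put `φ_i = (δ_0 - δ_{10^i} + δ_{3·10^i}) / 3` and let `Φ` be
a weak-* cluster point of the convolution products `φ_1 ⋯ φ_k`.  Since `‖φ_i ⋆ φ_i ⋆ φ_i‖ = 25/27`,
`Φ □ Ψ □ Φ □ Ψ' □ Φ = 0` for all `Ψ, Ψ'`, so that `Φ` is in the radical, whereas
`⟨Φ □ Φ, f⟩ = 1` for the function `f x = (-1) ^ #{digits of x equal to 1 or 4}`.
-/

namespace Pool.Agent.Results.MP_67b4ec_an.NilpotentRadical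

open Pool.Agent.Helper88_Arens

/-- If the group `G` has infinite centre, then for every `m` the Jacobson radical of
`(ℓ¹(G)'', □)` contains an element `Φ` with `Φ^{□ m} ≠ 0` and `Φ^{□ (m+1)} = 0`. -/
theorem result (G : Type*) [Group G] [Infinite (Subgroup.center G)] (m : ℕ) :
    RadBidualHasNilpotent (L1 G) m :=
  exists_radical_nilpotent G m

/-- The case `G = ℤ`, `m = 2`: there are `Φ, Ψ` in the radical of `ℓ¹(ℤ)''` with `Φ □ Ψ ≠ 0`. -/
theorem int_case :
    ∃ Φ ∈ Ring.jacobson (Bidual (L1 (Multiplicative ℤ))),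
      ∃ Ψ ∈ Ring.jacobson (Bidual (L1 (Multiplicative ℤ))), Φ * Ψ ≠ 0 := by
  have hinf : Infinite (Subgroup.center (Multiplicative ℤ)) := by
    rw [CommGroup.center_eq_top]
    infer_instance
  obtain ⟨Φ, hΦ, h2, -⟩ := result (Multiplicative ℤ) 2
  exact ⟨Φ, hΦ, Φ, hΦ, by rwa [← pow_two]⟩

end Pool.Agent.Results.MP_67b4ec_an.NilpotentRadical
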